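import Pool.Agent.Helper649.Circ

set_option autoImplicit false

namespace Pool.Agent.Results.MP_3dce9d_an.DensityPoint

open MeasureTheory Set Filter Topology

/-- The quadratic automorphism `(x, y) ↦ (y, x + y ^ 2)` of `ℂ × ℂ`. -/
def henon (p : ℂ × ℂ) : ℂ × ℂ := (p.2, p.1 + p.2 ^ 2)

/-- `henon` has a Herman ring with (irrational) rotation number `θ`. A holomorphic map on the
annulus `{z ∈ ℂ/ℤ : |Im z| < h}` is given as a one-periodic map on the strip `{|Im z| < h}` that is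
complex differentiable there. -/
def HasHermanRing (θ : ℝ) : Prop :=
  Irrational θ ∧ ∃ h : ℝ, 0 < h ∧ ∃ (φ : ℂ → ℂ × ℂ) (n : ℕ), 2 ≤ n ∧
    DifferentiableOn ℂ φ {z : ℂ | |z.im| < h} ∧
    (∀ z : ℂ, |z.im| < h → φ (z + 1) = φ z) ∧
    (∃ z z' : ℂ, |z.im| < h ∧ |z'.im| < h ∧ φ z ≠ φ z') ∧
    ∀ z : ℂ, |z.im| < h → henon^[n] (φ z) = φ (z + θ)

/-- The set `Θ ⊂ ℝ/ℤ` of rotation numbers of Herman rings of `henon`. -/
def rotationNumbers : Set (AddCircle (1 : ℝ)) :=
  {x | ∃ θ : ℝ, (θ : AddCircle (1 : ℝ)) = x ∧ HasHermanRing θ}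

/-- The arc `(-r, r)` of `ℝ/ℤ`. -/
def arc (r : ℝ) : Set (AddCircle (1 : ℝ)) := (fun t : ℝ => (t : AddCircle (1 : ℝ))) '' Ioo (-r) r

lemma ring_neg {θ : ℝ} (h : HasHermanRing θ) : HasHermanRing (-θ) := by
  obtain ⟨hirr, ht, hh, φ, n, hn, p1, p2, ⟨z, z', hz, hz', hne⟩, p4⟩ := h
  have hneg : ∀ z : ℂ, |z.im| < ht → |(-z).im| < ht := by
    intro z hz
    rw [Complex.neg_im, abs_neg]; exact hz
  refine ⟨hirr.neg, ht, hh, fun z => φ (-z), n, hn, ?_, ?_, ?_, ?_⟩
  · exact p1.comp (differentiable_neg.differentiableOn) (fun z hz => hneg z hz)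
  · intro z hz
    have h1 : |(-z - 1).im| < ht := by
      rw [Complex.sub_im, Complex.one_im, sub_zero]; exact hneg z hz
    have h2 := p2 (-z - 1) h1
    rw [sub_add_cancel] at h2
    have e : -(z + 1) = -z - 1 := by ring
    simp only [e]
    exact h2.symm
  · refine ⟨-z, -z', hneg z hz, hneg z' hz', ?_⟩
    simpa using hne
  · intro z hz
    have h1 := p4 (-z) (hneg z hz)
    simp only
    rw [h1]
    congr 1
    push_cast; ring

/-- The point `0` is a Lebesgue density point of the set of rotation numbers of Herman rings. -/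
theorem result :
    Tendsto (fun r : ℝ => AddCircle.haarAddCircle (rotationNumbers ∩ arc r) / ENNReal.ofReal (2 * r))
      (𝓝[>] 0) (𝓝 1) ∧
    Tendsto (fun r : ℝ => AddCircle.haarAddCircle (arc r \ rotationNumbers) / ENNReal.ofReal (2 * r))
      (𝓝[>] 0) (𝓝 0) := by
  obtain ⟨θ0, hθ0, h⟩ := Pool.Agent.Helper649.rings
  refine Pool.Agent.Helper649.density rotationNumbers θ0 hθ0 (fun t h1 h2 h3 => ?_)
  have hring : HasHermanRing |t| := by
    obtain ⟨hirr, ht, hh, φ, p1, p2, p3, p4⟩ := h |t| h2 h1 h3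
    exact ⟨hirr, ht, hh, φ, 2, le_rfl, p1, fun z _ => p2 z, p3, p4⟩
  refine ⟨t, rfl, ?_⟩
  rcases abs_choice t with h4 | h4
  · rwa [h4] at hring
  · rw [h4] at hring
    have := ring_neg hring
    rwa [neg_neg] at this

end Pool.Agent.Results.MP_3dce9d_an.DensityPoint
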